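import Pool.Agent.H9.SE.TarK
import Pool.Agent.H7.SF.ReflS

/-!
# MP_eaeaf5_lc, module HTG: Hartogs in models of ZFC
-/

set_option autoImplicit false

open Ordinal Order Set
open scoped ZFSet

namespace SE

open SF CAA

/-- the relation induced on `x` by the function `f` -/
noncomputable def hRel (x f : V) : V :=
  (ZFSet.prod x x).sep fun z => app f (fst z) ∈ app f (snd z)

theorem tm_hRel : Tm ZFm (fun _ v => hRel (v 0) (v 1)) :=
  (Tm.sep (R := fun _ v => app (v 2) (fst (v 0)) ∈ app (v 2) (snd (v 0)))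
    (Dfb.mem (Tm.app (Tm.var 2) (Tm.fst (Tm.var 0))) (Tm.app (Tm.var 2) (Tm.snd (Tm.var 0))))
    (Tm.prod (Tm.var 0) (Tm.var 0))).congr fun M k v hv => rfl

/-- the relation determines the values -/
theorem hRel_app {x f f' α α' : V} (hf : Onto f x α) (hf' : Onto f' x α') (hα : α.IsTransitive)
    (hα' : α'.IsTransitive) (h : hRel x f = hRel x f') : ∀ (o : Ordinal.{0}), ∀ a ∈ x,
    (app f a).rank = o → app f a = app f' a := by
  have key : ∀ {g β : V}, Onto g x β → β.IsTransitive → ∀ a ∈ x, ∀ y, y ∈ app g a ↔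
      ∃ b ∈ x, ZFSet.pair b a ∈ hRel x g ∧ y = app g b := by
    intro g β hg hβ a ha y
    constructor
    · intro hy
      have h1 : y ∈ β := hβ _ (app_mem hg.1 ha) hy
      obtain ⟨b, hb, h2⟩ := hg.2 y h1
      have h3 : y = app g b := (app_eq (svl_of_isFunc hg.1) h2).symm
      refine ⟨b, hb, ?_, h3⟩
      unfold hRel
      rw [ZFSet.mem_sep, ZFSet.pair_mem_prod, fst_pair, snd_pair]
      exact ⟨⟨hb, ha⟩, h3 ▸ hy⟩
    · rintro ⟨b, hb, h1, rfl⟩
      unfold hRel at h1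
      rw [ZFSet.mem_sep, fst_pair, snd_pair] at h1
      exact h1.2
  intro o
  induction o using WellFoundedLT.induction with
  | _ o ih =>
    intro a ha ho
    ext y
    rw [key hf hα a ha, key hf' hα' a ha, ← h]
    refine exists_congr fun b => and_congr_right fun hb => and_congr_right fun h1 => ?_
    have h2 : app f b ∈ app f a := (key hf hα a ha _).2 ⟨b, hb, h1, rfl⟩
    have h3 := ZFSet.rank_lt_of_mem h2
    rw [ho] at h3
    rw [ih _ h3 b hb rfl]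

theorem hRel_inj {x f f' α α' : V} (hf : Onto f x α) (hf' : Onto f' x α') (hα : α.IsTransitive)
    (hα' : α'.IsTransitive) (h : hRel x f = hRel x f') : α = α' := by
  have h1 := hRel_app hf hf' hα hα' h
  ext y
  constructor
  · intro hy
    obtain ⟨a, ha, h2⟩ := hf.2 y hy
    rw [← app_eq (svl_of_isFunc hf.1) h2, h1 _ a ha rfl]
    exact app_mem hf'.1 ha
  · intro hy
    obtain ⟨a, ha, h2⟩ := hf'.2 y hy
    rw [← app_eq (svl_of_isFunc hf'.1) h2, ← h1 _ a ha rfl]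
    exact app_mem hf.1 ha

theorem pf_HTG : T_HTG := by
  intro W kW x hx
  by_contra hcon
  push Not at hcon
  have k : ZFm W := kW.toZFCm.toZFm
  obtain ⟨q, hq, hq2⟩ := kW.pow (ZFSet.prod x x)
    ((Tm.prod (Tm.var 0) (Tm.var 0)).1 W k (fun _ => x) fun _ => hx)
  -- the relation
  have hD : Dfb ZFm (fun M v => ∃ f, M f ∧ (Onto f (v 2) (v 0) ∧ v 1 = hRel (v 2) f ∧
      IsOrd (v 0))) := by
    refine (Dfb.ex (R := fun M v => Onto (v 0) (v 3) (v 1) ∧ v 2 = hRel (v 3) (v 0) ∧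
      IsOrd (v 1)) ?_).congr fun M k v hv => Iff.rfl
    exact (Dfb.onto (Tm.var 0) (Tm.var 3) (Tm.var 1)).and
      ((Dfb.eq (Tm.var 2) (Tm.at2 (F := fun _ a b => hRel a b) tm_hRel (Tm.var 3) (Tm.var 0))).and
        (Dfb.isOrd (Tm.var 1)))
  let p : ℕ → V := cons x fun _ => q
  have hp : In W p := by
    intro i
    cases i with
    | zero => exact hx
    | succ n => exact hq
  have hq' : W (q.sep fun r => ∃ α, W α ∧ ∃ f, W f ∧ (Onto f x α ∧ r = hRel x f ∧ IsOrd α)) :=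
    (Tm.sep (R := fun M v => ∃ α, M α ∧ ∃ f, M f ∧ (Onto f (v 1) α ∧ v 0 = hRel (v 1) f ∧
      IsOrd α)) ((Dfb.ex hD).congr fun M k v hv => Iff.rfl) (Tm.var 1)).1 W k p hp
  obtain ⟨φ, hφ⟩ := id hD
  have hqM : ∀ r ∈ q, W r := fun r hr => k.trans _ hq r hr
  obtain ⟨b, hb, hb2⟩ := k.coll φ p _ hp hq' (by
    intro r hr
    rw [ZFSet.mem_sep] at hr
    obtain ⟨hr1, α, hα, h1⟩ := hr
    exact ⟨α, hα, (hφ W k _ ((hp.cons (hqM r hr1)).cons hα)).2 h1⟩)
  -- all ordinals of the model are in `b`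
  have hall : ∀ α : Ordinal.{0}, W α.toZFSet → α.toZFSet ∈ b := by
    intro α hα
    obtain ⟨f, hf, hf2⟩ := hcon α hα
    have hr : W (hRel x f) := tm_hRel.1 W k (cons x fun _ => f) fun i => by
      cases i with
      | zero => exact hx
      | succ n => exact hf
    have hrq : hRel x f ∈ q := hq2 _ hr fun z hz => (ZFSet.mem_sep.1 hz).1
    obtain ⟨y, hy, h1⟩ := hb2 (hRel x f) (ZFSet.mem_sep.2 ⟨hrq, _, hα, f, hf, hf2, rfl, α, rfl⟩)
    have hyW : W y := k.trans _ hb y hy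
    obtain ⟨f', hf', h2, h3, h4⟩ := (hφ W k _ ((hp.cons hr).cons hyW)).1 h1
    have h5 : α.toZFSet = y := hRel_inj hf2 h2 ((isOrd_iff _).1 ⟨α, rfl⟩).1
      ((isOrd_iff _).1 h4).1 h3
    rwa [h5]
  -- contradiction
  have hs : W (b.sep fun y => IsOrd y) :=
    (Tm.sep (R := fun _ v => IsOrd (v 0)) (Dfb.isOrd (Tm.var 0)) (Tm.var 0)).1 W k (fun _ => b)
      fun _ => hb
  have hu : W (⋃₀ (b.sep fun y => IsOrd y) : ZFSet) := k.union _ hs
  have huo : IsOrd (⋃₀ (b.sep fun y => IsOrd y) : ZFSet) := by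
    rw [isOrd_iff]
    have h1 : ∀ y ∈ (⋃₀ (b.sep fun y => IsOrd y) : ZFSet), ∃ s : V, IsOrd s ∧ y ∈ s ∧
        s ⊆ (⋃₀ (b.sep fun y => IsOrd y) : ZFSet) := by
      intro y hy
      obtain ⟨s, hs1, hs2⟩ := ZFSet.mem_sUnion.1 hy
      exact ⟨s, (ZFSet.mem_sep.1 hs1).2, hs2, fun z hz => ZFSet.mem_sUnion.2 ⟨s, hs1, hz⟩⟩
    constructor
    · intro y hy z hz
      obtain ⟨s, h2, h3, h4⟩ := h1 y hy
      exact h4 (((isOrd_iff s).1 h2).1 y h3 hz)
    · intro y hy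
      obtain ⟨s, h2, h3, h4⟩ := h1 y hy
      exact ((isOrd_iff s).1 h2).2 y h3
  obtain ⟨γ, hγ⟩ := huo
  rw [hγ] at hu
  have h1 := hall (γ + 1) (k.msucc hu)
  have h2 : (γ + 1).toZFSet ⊆ (⋃₀ (b.sep fun y => IsOrd y) : ZFSet) := fun z hz =>
    ZFSet.mem_sUnion.2 ⟨_, ZFSet.mem_sep.2 ⟨h1, _, rfl⟩, hz⟩
  rw [hγ] at h2
  have h3 : γ.toZFSet ∈ (γ + 1).toZFSet :=
    Ordinal.toZFSet_mem_toZFSet_iff.2 (Order.lt_add_one_iff.2 le_rfl)
  exact lt_irrefl _ (Ordinal.toZFSet_mem_toZFSet_iff.1 (h2 h3))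

end SE
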