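import Pool.Agent.H9.SE.TarK

/-!
# MP_eaeaf5_lc, module KJ1: the collapse of the coded structure
-/

set_option autoImplicit false

open Ordinal Order Set
open scoped ZFSet

namespace SE

open SF CAA

theorem kj_ky (hAA : T_AA) (k : ℕ) {x : V} (hx : x ∈ hf) : ky k x ∈ hf :=
  hAA.2.2.2.1 _ (hAA.2.1 k) _ hx

theorem kj_Ef {F : V → V} {z m : V} (hz : z ∈ hf) (hm : m ∈ hf) :
    ZFSet.pair z m ∈ Ef F ↔ em F z m := by
  unfold Ef
  rw [ZFSet.mem_sep, ZFSet.pair_mem_prod, fst_pair, snd_pair]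
  exact ⟨fun h => h.2, fun h => ⟨⟨hz, hm⟩, h⟩⟩

theorem kj_mem {F : V → V} {c : V} (hc : Cps hf (Ef F) c) {m : V} (hm : m ∈ hf) (y : V) :
    y ∈ app c m ↔ ∃ z ∈ hf, em F z m ∧ y = app c z := by
  rw [hc.eq m hm y]
  constructor
  · rintro ⟨z, hz, h1, h2⟩
    exact ⟨z, hz, (kj_Ef hz hm).1 h1, h2⟩
  · rintro ⟨z, hz, h1, h2⟩
    exact ⟨z, hz, (kj_Ef hz hm).2 h1, h2⟩

theorem kj_rg {F : V → V} {c : V} (hc : Cps hf (Ef F) c) (y : V) :
    y ∈ rg c ↔ ∃ m ∈ hf, y = app c m := by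
  rw [mem_rg]
  constructor
  · rintro ⟨x, hx⟩
    refine ⟨x, ?_, (app_eq hc.svl hx).symm⟩
    rw [← hc.dm]
    exact mem_dm.2 ⟨y, hx⟩
  · rintro ⟨m, hm, rfl⟩
    rw [← hc.dm] at hm
    obtain ⟨y, hy⟩ := mem_dm.1 hm
    refine ⟨m, ?_⟩
    rwa [app_eq hc.svl hy]

theorem pf_KJ1 : T_AA → T_KJ1 := by
  intro hAA F c hT hM hc
  have hpair : ∀ x ∈ hf, ∀ y ∈ hf, ZFSet.pair x y ∈ hf := hAA.2.2.2.1
  have htr : hf.IsTransitive := hAA.1
  have hnS : ∀ n : ℕ, nS n ∈ hf := hAA.2.1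
  have hom : om ⊆ hf := hAA.2.2.1
  have h0 : (∅ : V) ∈ hf := by
    have := hnS 0
    rwa [nS_zero] at this
  have hnm : ∀ h ∈ hf, nm h ∈ hf := fun h hh => hpair _ (hnS 1) _ hh
  have hmem := fun {m : V} (hm : m ∈ hf) (y : V) => kj_mem hc hm y
  -- eqv implies equal
  have hE1 : ∀ m ∈ hf, ∀ n ∈ hf, eqv F m n → app c m = app c n := by
    intro m hm n hn h
    ext y
    rw [hmem hm, hmem hn]
    refine exists_congr fun z => and_congr_right fun hz => and_congr_left fun _ => ?_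
    exact hM.e1 m hm n hn z hz h
  -- equal implies eqv
  have hE2 : ∀ (o : Ordinal.{0}), ∀ m ∈ hf, (app c m).rank = o → ∀ n ∈ hf,
      app c m = app c n → eqv F m n := by
    intro o
    induction o using WellFoundedLT.induction with
    | _ o ih =>
      intro m hm ho n hn h
      by_contra hne
      have hz : F (ky 2 (ZFSet.pair m n)) ∈ hf := hT _ (kj_ky hAA 2 (hpair _ hm _ hn))
      have h3 := hM.e3 m hm n hn hne
      apply h3
      constructor
      · intro h4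
        have h5 : app c (F (ky 2 (ZFSet.pair m n))) ∈ app c m := (hmem hm _).2 ⟨_, hz, h4, rfl⟩
        have h6 := ZFSet.rank_lt_of_mem h5
        rw [ho] at h6
        rw [h] at h5
        obtain ⟨z', hz', h7, h8⟩ := (hmem hn _).1 h5
        have h9 := ih _ h6 _ hz rfl z' hz' h8
        exact (hM.e2 _ hz _ hz' n hn h9).2 h7
      · intro h4
        have h5 : app c (F (ky 2 (ZFSet.pair m n))) ∈ app c n := (hmem hn _).2 ⟨_, hz, h4, rfl⟩
        rw [← h] at h5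
        have h6 := ZFSet.rank_lt_of_mem h5
        rw [ho] at h6
        obtain ⟨z', hz', h7, h8⟩ := (hmem hm _).1 h5
        have h9 := ih _ h6 _ hz rfl z' hz' h8
        exact (hM.e2 _ hz _ hz' m hm h9).2 h7
  have hE : ∀ m ∈ hf, ∀ n ∈ hf, (app c m = app c n ↔ eqv F m n) := fun m hm n hn =>
    ⟨fun h => hE2 _ m hm rfl n hn h, hE1 m hm n hn⟩
  have hN : ∀ h : V, h ∈ hf → app c (nm h) = h := by
    intro h
    induction h using ZFSet.inductionOn with
    | _ h ih =>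
      intro hh
      ext y
      rw [hmem (hnm h hh)]
      constructor
      · rintro ⟨z, hz, h1, rfl⟩
        obtain ⟨h2, h3⟩ := hM.n2 h hh z hz h1
        have h4 := htr _ hh h2
        rw [(hE _ hz _ (hnm _ h4)).2 h3, ih _ h2 h4]
        exact h2
      · intro hy
        have hy' := htr _ hh hy
        exact ⟨nm y, hnm y hy', hM.n1 h hh y hy, (ih y hy hy').symm⟩
  refine ⟨hE, ?_, hN, ?_, ?_, ?_, kj_rg hc⟩
  · intro m hm n hn
    constructor
    · intro h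
      obtain ⟨z, hz, h1, h2⟩ := (hmem hn _).1 h
      exact (hM.e2 m hm z hz n hn ((hE m hm z hz).1 h2)).2 h1
    · intro h
      exact (hmem hn _).2 ⟨m, hm, h, rfl⟩
  · ext y
    rw [hmem (hnS 1)]
    constructor
    · rintro ⟨z, hz, h1, rfl⟩
      obtain ⟨h2, h3⟩ := hM.o2 z hz h1
      rw [(hE _ hz _ (hnm _ (hom h2))).2 h3, hN _ (hom h2)]
      exact h2
    · intro hy
      exact ⟨nm y, hnm y (hom hy), hM.o1 y hy, (hN y (hom hy)).symm⟩
  · intro x hx h9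
    ext y
    rw [hmem h0]
    constructor
    · rintro ⟨z, hz, h1, rfl⟩
      obtain ⟨h2, h3⟩ := hM.x2 z hz h1
      have h4 : ZFSet.pair (F (ky 5 z)) (F (ky 9 (F (ky 5 z)))) ∈ hf :=
        hpair _ (hom h2) _ (hT _ (kj_ky hAA 9 (hom h2)))
      rw [(hE _ hz _ (hnm _ h4)).2 h3, hN _ h4, h9 _ h2]
      exact pair_app_mem hx h2
    · intro hy
      obtain ⟨n, hn, b, hb, rfl⟩ := ZFSet.mem_prod.1 (hx.1 hy)
      have h2 : b = app x n := (app_eq (svl_of_isFunc hx) hy).symm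
      rw [h2, ← h9 n hn]
      have h4 : ZFSet.pair n (F (ky 9 n)) ∈ hf :=
        hpair _ (hom hn) _ (hT _ (kj_ky hAA 9 (hom hn)))
      exact ⟨_, hnm _ h4, hM.x1 n hn, (hN _ h4).symm⟩
  · intro y hy z hz
    obtain ⟨m, hm, rfl⟩ := (kj_rg hc y).1 hy
    obtain ⟨z', hz', -, rfl⟩ := (hmem hm z).1 hz
    exact (kj_rg hc _).2 ⟨z', hz', rfl⟩

end SE
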