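import Pool.Agent.H29.SE.KJ1
import Pool.Agent.H7.SF.ReflS

/-!
# MP_eaeaf5_lc, module KJ2: truth in the collapse
-/

set_option autoImplicit false

open Ordinal Order Set
open scoped ZFSet

namespace SE

open SF CAA

theorem kj_psh {y t : V} (hy : y ∈ hf) (ht : t ∈ PL hf) : psh y t ∈ PL hf := by
  obtain ⟨d, l, rfl, hd, hl⟩ := mem_PL.1 ht
  rw [psh_pl]
  refine mem_PL.2 ⟨d, y :: l, rfl, hd, fun p hp => ?_⟩
  rcases List.mem_cons.1 hp with rfl | hp
  · exact hy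
  · exact hl p hp

theorem kj_vn {i : ℕ} {t : V} (ht : t ∈ PL hf) : vn i t ∈ hf := by
  obtain ⟨d, l, rfl, hd, hl⟩ := mem_PL.1 ht
  rw [vn_pl, List.getD_eq_getElem?_getD]
  cases h : l[i]? with
  | none => exact hd
  | some a => exact hl a (List.mem_of_getElem? h)

theorem kj_cd (hAA : T_AA) (φ : Fml) : cd φ ∈ hf := by
  have hp : ∀ x ∈ hf, ∀ y ∈ hf, ZFSet.pair x y ∈ hf := hAA.2.2.2.1
  have hn : ∀ n : ℕ, nS n ∈ hf := hAA.2.1
  induction φ with
  | mem i j => exact hp _ (hn 0) _ (hp _ (hn i) _ (hn j))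
  | eq i j => exact hp _ (hn 1) _ (hp _ (hn i) _ (hn j))
  | prd i => exact hp _ (hn 2) _ (hn i)
  | neg φ ih => exact hp _ (hn 3) _ ih
  | and φ ψ ih1 ih2 => exact hp _ (hn 4) _ (hp _ ih1 _ ih2)
  | ex φ ih => exact hp _ (hn 5) _ ih

theorem kj_lc (hAA : T_AA) (l : List V) (hl : ∀ p ∈ l, p ∈ hf) : lc l ∈ hf := by
  induction l with
  | nil =>
    have := hAA.2.1 0
    rw [nS_zero] at this
    exact this
  | cons a l ih =>
    exact hAA.2.2.2.1 _ (hl a (by simp)) _ (ih fun p hp => hl p (by simp [hp]))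

theorem kj_PL (hAA : T_AA) {t : V} (ht : t ∈ PL hf) : t ∈ hf := by
  obtain ⟨d, l, rfl, hd, hl⟩ := mem_PL.1 ht
  exact hAA.2.2.2.1 _ hd _ (kj_lc hAA l hl)

theorem pf_KJ2 : T_KJ1 → T_AA → T_KJ2 := by
  intro hJ hAA F c hT h1 h2 hc φ
  obtain ⟨hE, hM, hN, hO, hX, htr, hrg⟩ := hJ F c hT h2 hc
  induction φ with
  | mem i j =>
    intro t ht
    rw [h1.mem i j t ht, ← hM _ (kj_vn ht) _ (kj_vn ht)]
    exact Iff.rfl
  | eq i j =>
    intro t ht
    rw [h1.eq i j t ht, ← hE _ (kj_vn ht) _ (kj_vn ht)]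
    exact Iff.rfl
  | prd i =>
    intro t ht
    exact ⟨fun h => (h1.prd i t ht h).elim, fun h => h.elim⟩
  | neg φ ih =>
    intro t ht
    have := h1.neg (cd φ) (cd_mem_CD φ) t ht
    rw [show cd (.neg φ) = ZFSet.pair (nS 3) (cd φ) from rfl, this, ih t ht]
    exact Iff.rfl
  | and φ ψ ih1 ih2 =>
    intro t ht
    have := h1.and (cd φ) (cd_mem_CD φ) (cd ψ) (cd_mem_CD ψ) t ht
    rw [show cd (.and φ ψ) = ZFSet.pair (nS 4) (ZFSet.pair (cd φ) (cd ψ)) from rfl, this, ih1 t ht,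
      ih2 t ht]
    exact Iff.rfl
  | ex φ ih =>
    intro t ht
    have hv : ∀ y : V, (fun i => app c (vn i (psh y t))) = cons (app c y) fun i => app c (vn i t) := by
      intro y
      funext i
      cases i with
      | zero =>
        show app c (vn 0 (psh y t)) = app c y
        rw [vn_psh_zero]
      | succ i =>
        show app c (vn (i + 1) (psh y t)) = app c (vn i t)
        rw [vn_psh_succ]
    rw [show cd (.ex φ) = ZFSet.pair (nS 5) (cd φ) from rfl]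
    constructor
    · intro h
      have h3 := h1.ex1 (cd φ) (cd_mem_CD φ) t ht h
      have hpt : ZFSet.pair (cd φ) t ∈ hf := hAA.2.2.2.1 _ (kj_cd hAA φ) _ (kj_PL hAA ht)
      have hy : F (ky 13 (ZFSet.pair (cd φ) t)) ∈ hf := hT _ (hAA.2.2.2.1 _ (hAA.2.1 13) _ hpt)
      have h4 := (ih _ (kj_psh hy ht)).1 h3
      rw [hv] at h4
      exact ⟨app c (F (ky 13 (ZFSet.pair (cd φ) t))), (hrg _).2 ⟨_, hy, rfl⟩, h4⟩
    · rintro ⟨x, hx, h4⟩
      obtain ⟨y, hy, rfl⟩ := (hrg x).1 hx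
      have h5 : Sat (· ∈ rg c) φ fun i => app c (vn i (psh y t)) := by
        rw [hv]
        exact h4
      exact h1.ex2 (cd φ) (cd_mem_CD φ) t ht y hy ((ih _ (kj_psh hy ht)).2 h5)

end SE
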