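import Pool.Agent.H29.SE.KJ2

/-!
# MP_eaeaf5_lc, module KK: the collapse is a model
-/

set_option autoImplicit false

open Ordinal Order Set
open scoped ZFSet

namespace SE

open SF CAA

theorem pf_KK : T_KJ1 → T_KJ2 → T_AA → T_KK := by
  intro hJ1 hJ2 hAA φ F c x hT hM hc hx h9
  obtain ⟨hE, hMm, hN, hO, hX, htr, hrg⟩ := hJ1 F c hT hM.b hc
  have hS := hJ2 F c hT hM.a hM.b hc
  have hp : ∀ x ∈ hf, ∀ y ∈ hf, ZFSet.pair x y ∈ hf := hAA.2.2.2.1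
  have hn : ∀ n : ℕ, nS n ∈ hf := hAA.2.1
  have h0 : (∅ : V) ∈ hf := by
    have := hn 0
    rwa [nS_zero] at this
  have hmem := fun {m : V} (hm : m ∈ hf) (y : V) => kj_mem hc hm y
  have hv : ∀ y t : V, (fun i => app c (vn i (psh y t))) = cons (app c y) fun i => app c (vn i t) := by
    intro y t
    funext i
    cases i with
    | zero =>
      show app c (vn 0 (psh y t)) = app c y
      rw [vn_psh_zero]
    | succ i =>
      show app c (vn (i + 1) (psh y t)) = app c (vn i t)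
      rw [vn_psh_succ]
  -- assignments
  have hass : ∀ (φ : Fml) (v : ℕ → V), (∀ i, v i ∈ rg c) → ∃ t ∈ PL hf,
      ∀ i < φ.bd, app c (vn i t) = v i := by
    intro φ v hv
    choose w hw1 hw2 using fun i => (hrg (v i)).1 (hv i)
    refine ⟨pl (w 0) ((List.range φ.bd).map w), mem_PL.2 ⟨_, _, rfl, hw1 0, ?_⟩, ?_⟩
    · intro p hp
      obtain ⟨i, -, rfl⟩ := List.mem_map.1 hp
      exact hw1 i
    · intro i hi
      rw [vn_pl, List.getD_eq_getElem _ _ (by simpa using hi)]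
      simp only [List.getElem_map, List.getElem_range]
      exact (hw2 i).symm
  have cut1 : ∀ (φ : Fml) (v : ℕ → V) (t : V), (∀ i < φ.bd, app c (vn i t) = v i) → ∀ z : V,
      (Sat (· ∈ rg c) φ (cons z v) ↔ Sat (· ∈ rg c) φ (cons z fun i => app c (vn i t))) := by
    intro φ v t ht z
    refine satP_congr _ _ _ _ _ fun i hi => ?_
    rcases i with _ | i
    · rfl
    · exact (ht i (by omega)).symm
  have cut2 : ∀ (φ : Fml) (v : ℕ → V) (t : V), (∀ i < φ.bd, app c (vn i t) = v i) → ∀ z y : V,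
      (Sat (· ∈ rg c) φ (cons z (cons y v)) ↔
        Sat (· ∈ rg c) φ (cons z (cons y fun i => app c (vn i t)))) := by
    intro φ v t ht z y
    refine satP_congr _ _ _ _ _ fun i hi => ?_
    rcases i with _ | _ | i
    · rfl
    · rfl
    · exact (ht i (by omega)).symm
  refine ⟨⟨fun a ha b hb => htr a ha hb, ?_, ?_, ?_, ?_, ?_⟩, ?_, ?_⟩
  · intro a b ha hb
    obtain ⟨m, hm, rfl⟩ := (hrg a).1 ha
    obtain ⟨n, hn', rfl⟩ := (hrg b).1 hb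
    have h6 : F (ky 6 (ZFSet.pair m n)) ∈ hf := hT _ (kj_ky hAA 6 (hp _ hm _ hn'))
    refine (hrg _).2 ⟨_, h6, ?_⟩
    ext y
    rw [hmem h6, ZFSet.mem_pair]
    constructor
    · rintro (rfl | rfl)
      · exact ⟨m, hm, (hM.c.pr m hm n hn' m hm).2 (Or.inl ((hE m hm m hm).1 rfl)), rfl⟩
      · exact ⟨n, hn', (hM.c.pr m hm n hn' n hn').2 (Or.inr ((hE n hn' n hn').1 rfl)), rfl⟩
    · rintro ⟨z, hz, h1, rfl⟩
      rcases (hM.c.pr m hm n hn' z hz).1 h1 with h | h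
      · exact Or.inl ((hE z hz m hm).2 h)
      · exact Or.inr ((hE z hz n hn').2 h)
  · intro a ha
    obtain ⟨m, hm, rfl⟩ := (hrg a).1 ha
    have h7 : F (ky 7 m) ∈ hf := hT _ (kj_ky hAA 7 hm)
    refine (hrg _).2 ⟨_, h7, ?_⟩
    ext y
    rw [hmem h7, ZFSet.mem_sUnion]
    constructor
    · rintro ⟨u, hu, hy⟩
      obtain ⟨u', hu', h1, rfl⟩ := (hmem hm u).1 hu
      obtain ⟨z, hz, h2, rfl⟩ := (hmem hu' y).1 hy
      exact ⟨z, hz, hM.c.u1 m hm z hz u' hu' h2 h1, rfl⟩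
    · rintro ⟨z, hz, h1, rfl⟩
      obtain ⟨h2, h3⟩ := hM.c.u2 m hm z hz h1
      have h8 : F (ky 8 (ZFSet.pair m z)) ∈ hf := hT _ (kj_ky hAA 8 (hp _ hm _ hz))
      exact ⟨_, (hmem hm _).2 ⟨_, h8, h3, rfl⟩, (hmem h8 _).2 ⟨z, hz, h2, rfl⟩⟩
  · exact (hrg _).2 ⟨nS 1, hn 1, hO.symm⟩
  · intro φ v a hv' ha
    obtain ⟨m, hm, rfl⟩ := (hrg a).1 ha
    obtain ⟨t, ht, h1⟩ := hass φ v hv'
    have hb : F (ky 10 (ZFSet.pair (cd φ) (ZFSet.pair t m))) ∈ hf :=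
      hT _ (kj_ky hAA 10 (hp _ (kj_cd hAA φ) _ (hp _ (kj_PL hAA ht) _ hm)))
    refine (hrg _).2 ⟨_, hb, ?_⟩
    have key : ∀ z ∈ hf, (tv F (cd φ) (psh z t) ↔ Sat (· ∈ rg c) φ (cons (app c z) v)) := by
      intro z hz
      rw [hS φ _ (kj_psh hz ht), hv, cut1 φ v t h1]
    ext y
    rw [ZFSet.mem_sep, hmem hb]
    constructor
    · rintro ⟨hy, h2⟩
      obtain ⟨z, hz, h3, rfl⟩ := (hmem hm y).1 hy
      exact ⟨z, hz, (hM.c.sp _ (cd_mem_CD φ) t ht m hm z hz).2 ⟨h3, (key z hz).2 h2⟩, rfl⟩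
    · rintro ⟨z, hz, h2, rfl⟩
      obtain ⟨h3, h4⟩ := (hM.c.sp _ (cd_mem_CD φ) t ht m hm z hz).1 h2
      exact ⟨(hmem hm _).2 ⟨z, hz, h3, rfl⟩, (key z hz).1 h4⟩
  · intro φ v a hv' ha h2
    obtain ⟨m, hm, rfl⟩ := (hrg a).1 ha
    obtain ⟨t, ht, h1⟩ := hass φ v hv'
    have hb : F (ky 11 (ZFSet.pair (cd φ) (ZFSet.pair t m))) ∈ hf :=
      hT _ (kj_ky hAA 11 (hp _ (kj_cd hAA φ) _ (hp _ (kj_PL hAA ht) _ hm)))
    have key : ∀ z ∈ hf, ∀ y ∈ hf, (tv F (cd φ) (psh z (psh y t)) ↔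
        Sat (· ∈ rg c) φ (cons (app c z) (cons (app c y) v))) := by
      intro z hz y hy
      rw [hS φ _ (kj_psh hz (kj_psh hy ht)), hv, hv, cut2 φ v t h1]
    refine ⟨app c (F (ky 11 (ZFSet.pair (cd φ) (ZFSet.pair t m)))), (hrg _).2 ⟨_, hb, rfl⟩, ?_⟩
    intro u hu
    obtain ⟨u', hu', h3, rfl⟩ := (hmem hm u).1 hu
    obtain ⟨y, hy, h4⟩ := h2 _ hu
    obtain ⟨y', hy', rfl⟩ := (hrg y).1 hy
    obtain ⟨h5, h6⟩ := hM.c.co _ (cd_mem_CD φ) t ht m hm u' hu' y' hy' h3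
      ((key y' hy' u' hu').2 h4) _ rfl _ rfl
    have hw : F (ky 12 (ZFSet.pair (cd φ) (ZFSet.pair t (ZFSet.pair
        (F (ky 11 (ZFSet.pair (cd φ) (ZFSet.pair t m)))) u')))) ∈ hf :=
      hT _ (kj_ky hAA 12 (hp _ (kj_cd hAA φ) _ (hp _ (kj_PL hAA ht) _ (hp _ hb _ hu'))))
    exact ⟨_, (hmem hb _).2 ⟨_, hw, h5, rfl⟩, (key _ hw u' hu').1 h6⟩
  · exact (hrg _).2 ⟨∅, h0, (hX x hx h9).symm⟩
  · have ht : pl ∅ [] ∈ PL hf := mem_PL.2 ⟨∅, [], rfl, h0, by simp⟩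
    have h1 := (hS φ _ ht).1 hM.d
    have h2 : (fun i => app c (vn i (pl ∅ []))) = fun _ => x := by
      funext i
      rw [vn_pl, List.getD_nil, hX x hx h9]
    rwa [h2] at h1

end SE
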